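import Pool.Agent.J4H93.HN.Stm

set_option autoImplicit false

/-! Piece HEAVY of project HN. -/

namespace Pool.Agent.J4H51.HN

open Finset Pool.Agent.J4H93.HN

theorem R_union (S T : Finset ℕ) : R (S ∪ T) ≤ R S + R T := by
  unfold R
  have h := Finset.sum_union_inter (s₁ := S) (s₂ := T) (f := fun n : ℕ => (1 : ℝ) / n)
  have h2 : 0 ≤ ∑ n ∈ S ∩ T, (1 : ℝ) / n := Finset.sum_nonneg fun n _ => by positivity
  linarith

theorem R_mono {S T : Finset ℕ} (h : S ⊆ T) : R S ≤ R T := by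
  unfold R
  exact Finset.sum_le_sum_of_subset_of_nonneg h fun n _ _ => by positivity

theorem R_nonneg (S : Finset ℕ) : 0 ≤ R S := by
  unfold R
  exact Finset.sum_nonneg fun n _ => by positivity

theorem R_inter_biUnion (A : Finset ℕ) (M : Finset ℕ) (B : ℕ → Finset ℕ) :
    R (A ∩ M.biUnion B) ≤ ∑ x ∈ M, R (A ∩ B x) := by
  classical
  induction M using Finset.induction_on with
  | empty => simp [R]
  | insert a M ha ih =>
    rw [Finset.sum_insert ha, Finset.biUnion_insert, Finset.inter_union_distrib_left]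
    exact (R_union _ _).trans (by linarith)

theorem bonf (M : Finset ℕ) (A : ℕ → Finset ℕ) (δ : ℝ) (h0 : 0 ≤ δ)
    (h : ∀ x ∈ M, ∀ x' ∈ M, x ≠ x' → R (A x ∩ A x') ≤ δ) :
    ∑ x ∈ M, R (A x) ≤ R (M.biUnion A) + (M.card : ℝ) ^ 2 * δ := by
  classical
  induction M using Finset.induction_on with
  | empty => simp [R]
  | insert a M ha ih =>
    have ih' := ih fun x hx x' hx' hne =>
      h x (Finset.mem_insert_of_mem hx) x' (Finset.mem_insert_of_mem hx') hne
    rw [Finset.sum_insert ha, Finset.biUnion_insert, Finset.card_insert_of_notMem ha]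
    set U := M.biUnion A with hU
    have h1 : R (A a) = R (A a ∩ U) + R (A a \ U) := by
      unfold R
      rw [Finset.sum_inter_add_sum_sdiff]
    have h2 : R (A a ∪ U) = R (A a \ U) + R U := by
      unfold R
      rw [← Finset.sdiff_union_self_eq_union, Finset.sum_union Finset.sdiff_disjoint]
    have h3 : R (A a ∩ U) ≤ M.card * δ := by
      refine (R_inter_biUnion _ _ _).trans ?_
      refine (Finset.sum_le_sum (g := fun _ => δ) fun x hx => ?_).trans ?_
      · exact h a (Finset.mem_insert_self _ _) x (Finset.mem_insert_of_mem hx)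
          (fun hax => ha (hax ▸ hx))
      · rw [Finset.sum_const, nsmul_eq_mul]
    push_cast
    nlinarith [mul_nonneg (Nat.cast_nonneg M.card : (0 : ℝ) ≤ M.card) h0]

theorem shared {Y : ℕ} (hY : 10 ^ 6 ≤ Y) (P1 : Finset ℕ)
    (hp : ∀ q ∈ P1, q.Prime ∧ Y ^ 29 < q ∧ q ≤ Y ^ 30) {h x x' : ℕ}
    (hx : x ∈ II Y h) (hx' : x' ∈ II Y h) (hne : x < x') :
    R (Dv P1 x ∩ Dv P1 x') ≤ 8 / (Y : ℝ) ^ 29 := by
  set T := Dv P1 x ∩ Dv P1 x' with hT
  have hT1 : ∀ q ∈ T, q ∈ P1 ∧ q ∣ x ∧ q ∣ x' := by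
    intro q hq
    rw [hT, Finset.mem_inter, Dv, Dv, Finset.mem_filter, Finset.mem_filter] at hq
    exact ⟨hq.1.1, hq.1.2, hq.2.2⟩
  have hD : x' - x ≤ 2 * Y ^ 240 := by
    rw [II, Finset.mem_Icc] at hx hx'
    omega
  have hD0 : 0 < x' - x := by omega
  have h1 : ∏ q ∈ T, q ∣ x' - x := by
    apply Finset.prod_primes_dvd
    · intro q hq
      exact (hp q (hT1 q hq).1).1.prime
    · intro q hq
      exact Nat.dvd_sub (hT1 q hq).2.2 (hT1 q hq).2.1
  have h2 : ∏ q ∈ T, q ≤ 2 * Y ^ 240 := (Nat.le_of_dvd hD0 h1).trans hD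
  have h3 : (Y ^ 29) ^ T.card ≤ ∏ q ∈ T, q := by
    apply Finset.pow_card_le_prod
    intro q hq
    exact (hp q (hT1 q hq).1).2.1.le
  have hY1 : 1 ≤ Y := le_trans (by norm_num) hY
  have h4 : T.card ≤ 8 := by
    by_contra hcon
    push Not at hcon
    have h5 : (Y ^ 29) ^ 9 ≤ (Y ^ 29) ^ T.card :=
      Nat.pow_le_pow_right (Nat.pow_pos hY1) hcon
    have h6 : Y ^ 261 ≤ 2 * Y ^ 240 := by
      have : (Y ^ 29) ^ 9 = Y ^ 261 := by rw [← pow_mul]
      rw [← this]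
      exact (h5.trans h3).trans h2
    have h7 : Y ^ 261 = Y ^ 21 * Y ^ 240 := by rw [← pow_add]
    rw [h7] at h6
    have h8 := Nat.le_of_mul_le_mul_right h6 (Nat.pow_pos hY1)
    have h9 : Y ≤ Y ^ 21 := by
      calc Y = Y ^ 1 := (pow_one Y).symm
        _ ≤ Y ^ 21 := Nat.pow_le_pow_right hY1 (by norm_num)
    omega
  have hYr : (0 : ℝ) < (Y : ℝ) ^ 29 := by
    have : (0 : ℝ) < Y := by exact_mod_cast hY1
    positivity
  calc R T ≤ ∑ q ∈ T, 1 / (Y : ℝ) ^ 29 := by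
        unfold R
        apply Finset.sum_le_sum
        intro q hq
        apply one_div_le_one_div_of_le hYr
        exact_mod_cast (hp q (hT1 q hq).1).2.1.le
    _ = T.card * (1 / (Y : ℝ) ^ 29) := by rw [Finset.sum_const, nsmul_eq_mul]
    _ ≤ 8 * (1 / (Y : ℝ) ^ 29) := by
        apply mul_le_mul_of_nonneg_right _ (by positivity)
        exact_mod_cast h4
    _ = 8 / (Y : ℝ) ^ 29 := by ring

theorem t_HEAVY : S_HEAVY := by
  classical
  intro Y k P0 P1 τ hP h hh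
  have hY := hP.hY
  have hYr : (10 : ℝ) ^ 6 ≤ Y := by exact_mod_cast hY
  have hY0 : (0 : ℝ) < Y := lt_of_lt_of_le (by norm_num) hYr
  set H := (II Y h).filter (fun x => 1 / (Y : ℝ) ^ 14 < R (Dv P1 x)) with hH
  -- the basic bound
  have key : ∀ M ⊆ H, ∑ x ∈ M, R (Dv P1 x) ≤ 1 / 2 + (M.card : ℝ) ^ 2 * (8 / (Y : ℝ) ^ 29) := by
    intro M hM
    have h1 := bonf M (fun x => Dv P1 x) (8 / (Y : ℝ) ^ 29) (by positivity) (by
      intro x hx x' hx' hne
      have hx1 : x ∈ II Y h := (Finset.mem_filter.1 (hM hx)).1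
      have hx2 : x' ∈ II Y h := (Finset.mem_filter.1 (hM hx')).1
      rcases lt_or_gt_of_ne hne with hlt | hlt
      · exact shared hY P1 hP.p1 hx1 hx2 hlt
      · show R (Dv P1 x ∩ Dv P1 x') ≤ _
        rw [Finset.inter_comm]
        exact shared hY P1 hP.p1 hx2 hx1 hlt)
    have h2 : R (M.biUnion fun x => Dv P1 x) ≤ 1 / 2 := by
      refine (R_mono ?_).trans hP.sig
      intro q hq
      rw [Finset.mem_biUnion] at hq
      obtain ⟨x, _, hx⟩ := hq
      exact (Finset.mem_filter.1 hx).1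
    linarith
  have hsq : ∀ m : ℝ, 0 ≤ m → m ≤ 2 * (Y : ℝ) ^ 14 → m ^ 2 * (8 / (Y : ℝ) ^ 29) ≤ 1 / 4 := by
    intro m hm0 hm
    have h1 : m ^ 2 ≤ (2 * (Y : ℝ) ^ 14) ^ 2 := pow_le_pow_left₀ hm0 hm 2
    calc m ^ 2 * (8 / (Y : ℝ) ^ 29) ≤ (2 * (Y : ℝ) ^ 14) ^ 2 * (8 / (Y : ℝ) ^ 29) :=
          mul_le_mul_of_nonneg_right h1 (by positivity)
      _ = 32 / Y := by
          field_simp
          ring
      _ ≤ 1 / 4 := by
          rw [div_le_div_iff₀ hY0 (by norm_num)]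
          linarith
  have hcard : H.card ≤ 2 * Y ^ 14 := by
    by_contra hcon
    push Not at hcon
    obtain ⟨M, hM, hMc⟩ := Finset.exists_subset_card_eq hcon.le
    have h1 := key M hM
    have h2 : (M.card : ℝ) = 2 * (Y : ℝ) ^ 14 := by rw [hMc]; push_cast; ring
    have h3 := hsq (M.card : ℝ) (Nat.cast_nonneg _) h2.le
    have h4 : (M.card : ℝ) * (1 / (Y : ℝ) ^ 14) ≤ ∑ x ∈ M, R (Dv P1 x) := by
      rw [← nsmul_eq_mul, ← Finset.sum_const]
      apply Finset.sum_le_sum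
      intro x hx
      exact (Finset.mem_filter.1 (hM hx)).2.le
    have h5 : (M.card : ℝ) * (1 / (Y : ℝ) ^ 14) = 2 := by
      rw [h2]
      field_simp
    linarith
  have h1 := key H (Finset.Subset.refl _)
  have h2 := hsq (H.card : ℝ) (Nat.cast_nonneg _) (by exact_mod_cast hcard)
  linarith

end Pool.Agent.J4H51.HN
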