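import Pool.Agent.J4H51.HN.Heavy

set_option autoImplicit false

/-! Piece POOR of project HN. -/

namespace Pool.Agent.J4H51.HN

open Finset Pool.Agent.J4H93.HN

theorem t_POOR : S_E1 → S_MD → S_HEAVY → S_POOR := by
  classical
  intro hE1 hMD hHV Y k P0 P1 τ hP h hh p hp
  have hk : 1 ≤ k := le_trans (by norm_num) hP.k2
  have hpr0 : ∀ q ∈ P0, q.Prime := fun q hq => (hP.p0 q hq).1
  have hpr1 : ∀ q ∈ P1, q.Prime := fun q hq => (hP.p1 q hq).1
  have hpp : p.Prime := by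
    rcases Finset.mem_union.1 hp with h1 | h1
    · exact hpr0 p h1
    · exact hpr1 p h1
  have hp0 : (0 : ℝ) < p := by exact_mod_cast hpp.pos
  set a : ℝ := (3 / 5 * R P0) ^ (k - 1) / (Nat.factorial (k - 1) : ℝ) with ha
  set b : ℝ := (3 / 5 * R P0) ^ k / (Nat.factorial k : ℝ) with hb
  have hR0 : 0 ≤ 3 / 5 * R P0 := mul_nonneg (by norm_num) (R_nonneg P0)
  have ha0 : 0 ≤ a := by rw [ha]; positivity
  have hb0 : 0 ≤ b := by rw [hb]; positivity
  have hab : a + b ≤ τ / 8 := hP.psi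
  -- the large primes of `x`
  have hes : ∀ (x m : ℕ), 1 ≤ m → es (Dv P1 x) m ≤ R (Dv P1 x) := by
    intro x m hm
    have h1 : R (Dv P1 x) ≤ 1 := by
      have : R (Dv P1 x) ≤ R P1 := R_mono (Finset.filter_subset _ _)
      have := hP.sig
      linarith
    have h0 := R_nonneg (Dv P1 x)
    calc es (Dv P1 x) m ≤ (R (Dv P1 x)) ^ m / (Nat.factorial m : ℝ) := hE1 _ _
      _ ≤ (R (Dv P1 x)) ^ m := by
          apply div_le_self (pow_nonneg h0 m)
          exact_mod_cast Nat.one_le_iff_ne_zero.2 (Nat.factorial_ne_zero m)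
      _ ≤ R (Dv P1 x) := by
          calc (R (Dv P1 x)) ^ m ≤ (R (Dv P1 x)) ^ 1 := pow_le_pow_of_le_one h0 h1 hm
            _ = R (Dv P1 x) := pow_one _
  have hes0 : ∀ (x m : ℕ), R (Dv P0 x) < 3 / 5 * R P0 →
      es (Dv P0 x) m ≤ (3 / 5 * R P0) ^ m / (Nat.factorial m : ℝ) := by
    intro x m hx
    refine (hE1 _ _).trans ?_
    apply div_le_div_of_nonneg_right _ (by positivity)
    exact pow_le_pow_left₀ (R_nonneg _) hx.le m
  have hesn : ∀ (P : Finset ℕ) (m : ℕ), 0 ≤ es P m := by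
    intro P m
    unfold es
    exact Finset.sum_nonneg fun T _ => Finset.prod_nonneg fun q _ => by positivity
  set A := (II Y h).filter
    (fun x => 1 / (Y : ℝ) ^ 14 < R (Dv P1 x) ∧ R (Dv P0 x) < 3 / 5 * R P0) with hA
  set H := (II Y h).filter (fun x => 1 / (Y : ℝ) ^ 14 < R (Dv P1 x)) with hH
  have hAH : A ⊆ H := by
    intro x hx
    rw [hA, Finset.mem_filter] at hx
    rw [hH, Finset.mem_filter]
    exact ⟨hx.1, hx.2.1⟩
  have key : ∀ x ∈ A, R (Mu (Dv (SS P0 P1 k) x) p) ≤ 1 / (p : ℝ) * ((a + b) * R (Dv P1 x)) := by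
    intro x hx
    rw [hA, Finset.mem_filter] at hx
    obtain ⟨hx1, _, hx3⟩ := hx
    have hx0 : 0 < x := by
      rw [II, Finset.mem_Icc] at hx1
      omega
    obtain ⟨m0, m1⟩ := hMD P0 P1 k x p hpr0 hpr1 hP.dis hx0 hk
    have hR1 := R_nonneg (Dv P1 x)
    rcases Finset.mem_union.1 hp with h1 | h1
    · refine (m0 h1).trans ?_
      apply mul_le_mul_of_nonneg_left _ (by positivity)
      have e1 : es (Dv P0 x) (k - 1) ≤ a := hes0 x (k - 1) hx3
      have e2 := hes x 11 (by norm_num)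
      calc es (Dv P0 x) (k - 1) * es (Dv P1 x) 11 ≤ a * R (Dv P1 x) :=
            mul_le_mul e1 e2 (hesn _ _) ha0
        _ ≤ (a + b) * R (Dv P1 x) := mul_le_mul_of_nonneg_right (by linarith) hR1
    · refine (m1 h1).trans ?_
      apply mul_le_mul_of_nonneg_left _ (by positivity)
      have e1 : es (Dv P0 x) k ≤ b := hes0 x k hx3
      have e2 := hes x 10 (by norm_num)
      calc es (Dv P0 x) k * es (Dv P1 x) 10 ≤ b * R (Dv P1 x) :=
            mul_le_mul e1 e2 (hesn _ _) hb0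
        _ ≤ (a + b) * R (Dv P1 x) := mul_le_mul_of_nonneg_right (by linarith) hR1
  have hsum : ∑ x ∈ A, R (Dv P1 x) ≤ 1 := by
    refine le_trans ?_ (hHV Y k P0 P1 τ hP h hh)
    exact Finset.sum_le_sum_of_subset_of_nonneg hAH fun x _ _ => R_nonneg _
  calc ∑ x ∈ A, R (Mu (Dv (SS P0 P1 k) x) p)
      ≤ ∑ x ∈ A, 1 / (p : ℝ) * ((a + b) * R (Dv P1 x)) := Finset.sum_le_sum key
    _ = 1 / (p : ℝ) * ((a + b) * ∑ x ∈ A, R (Dv P1 x)) := by
        rw [Finset.mul_sum, Finset.mul_sum]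
    _ ≤ 1 / (p : ℝ) * (τ / 8 * 1) := by
        apply mul_le_mul_of_nonneg_left _ (by positivity)
        apply mul_le_mul hab hsum
        · exact Finset.sum_nonneg fun x _ => R_nonneg _
        · linarith
    _ = τ / (8 * (p : ℝ)) := by
        field_simp

end Pool.Agent.J4H51.HN
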